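import Pool.Agent.Helper72.NI.Ctx

/-!
# Linear substitutions
-/

set_option autoImplicit false

namespace Pool.Agent.Helper28.NI

open MvPolynomial
open Pool.Agent.Helper72.NI (stp itr itr_zero itr_succ)

section

variable {L : Type} [Field L] {N : ℕ}

/-- linear substitution -/
noncomputable def sb (g : Matrix (Fin (N + 1)) (Fin (N + 1)) L) :
    MvPolynomial (Fin (N + 1)) L →ₐ[L] MvPolynomial (Fin (N + 1)) L :=
  aeval fun i => ∑ j, C (g i j) * X j

theorem eval_sb (g : Matrix (Fin (N + 1)) (Fin (N + 1)) L) (z : Fin (N + 1) → L)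
    (G : MvPolynomial (Fin (N + 1)) L) : eval z (sb g G) = eval (g.mulVec z) G := by
  have h : (eval z).comp (sb g).toRingHom = eval (g.mulVec z) := by
    apply MvPolynomial.ringHom_ext
    · intro r
      show eval z (sb g (C r)) = eval (g.mulVec z) (C r)
      unfold sb
      rw [aeval_C, algebraMap_eq, eval_C, eval_C]
    · intro i
      show eval z (sb g (X i)) = eval (g.mulVec z) (X i)
      unfold sb
      rw [aeval_X, eval_X, map_sum]
      refine Finset.sum_congr rfl fun j _ => ?_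
      rw [map_mul, eval_C, eval_X]
  exact RingHom.congr_fun h G

theorem sb_hom (g : Matrix (Fin (N + 1)) (Fin (N + 1)) L) {G : MvPolynomial (Fin (N + 1)) L}
    {e : ℕ} (h : G.IsHomogeneous e) : (sb g G).IsHomogeneous e := by
  have h1 := h.aeval (fun i => ∑ j, C (g i j) * X j) (n := 1) fun i =>
    IsHomogeneous.sum _ _ _ fun j _ => isHomogeneous_C_mul_X _ _
  rwa [one_mul] at h1

theorem sb_sb [Infinite L] {g h : Matrix (Fin (N + 1)) (Fin (N + 1)) L} (hgh : h * g = 1)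
    (G : MvPolynomial (Fin (N + 1)) L) : sb g (sb h G) = G := by
  apply MvPolynomial.funext
  intro z
  rw [eval_sb, eval_sb, Matrix.mulVec_mulVec, hgh, Matrix.one_mulVec]

theorem krull_sb [Infinite L] {g : Matrix (Fin (N + 1)) (Fin (N + 1)) L} (hg : g.det ≠ 0)
    (S : Set (MvPolynomial (Fin (N + 1)) L)) :
    ringKrullDim (MvPolynomial (Fin (N + 1)) L ⧸ Ideal.span (sb g '' S)) =
      ringKrullDim (MvPolynomial (Fin (N + 1)) L ⧸ Ideal.span S) := by
  have hu : IsUnit g.det := isUnit_iff_ne_zero.2 hg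
  have h1 : g⁻¹ * g = 1 := Matrix.nonsing_inv_mul g hu
  have h2 : g * g⁻¹ = 1 := Matrix.mul_nonsing_inv g hu
  obtain ⟨e, he⟩ : ∃ e : MvPolynomial (Fin (N + 1)) L ≃+* MvPolynomial (Fin (N + 1)) L,
      ∀ G, e G = sb g G :=
    ⟨(AlgEquiv.ofAlgHom (sb g) (sb g⁻¹) (AlgHom.ext fun G => sb_sb h1 G)
      (AlgHom.ext fun G => sb_sb h2 G)).toRingEquiv, fun G => rfl⟩
  symm
  apply ringKrullDim_eq_of_ringEquiv
  refine Ideal.quotientEquiv _ _ e ?_
  rw [Ideal.map_span]
  congr 1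
  ext G
  simp only [Set.mem_image]
  constructor
  · rintro ⟨H, hH, rfl⟩
    exact ⟨H, hH, he H⟩
  · rintro ⟨H, hH, rfl⟩
    exact ⟨H, hH, (he H).symm⟩

theorem eval_smul_of_hom {G : MvPolynomial (Fin (N + 1)) L} {e : ℕ} (h : G.IsHomogeneous e)
    (c : L) (x : Fin (N + 1) → L) : eval (c • x) G = c ^ e * eval x G := by
  rw [eval_eq, eval_eq, Finset.mul_sum]
  refine Finset.sum_congr rfl fun m hm => ?_
  have hdeg : ∑ i, m i = e := by
    have h2 := h (mem_support_iff.1 hm)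
    rw [Finsupp.weight_apply, Finsupp.sum_fintype _ _ (fun i => by simp)] at h2
    simpa using h2
  have h3 : ∏ i ∈ m.support, (c • x) i ^ m i = c ^ e * ∏ i ∈ m.support, x i ^ m i := by
    have h4 : ∏ i ∈ m.support, c ^ m i = c ^ e := by
      rw [Finset.prod_pow_eq_pow_sum, ← hdeg]
      congr 1
      exact Finset.sum_subset (Finset.subset_univ _) fun i _ hi => by
        simpa using hi
    rw [← h4, ← Finset.prod_mul_distrib]
    refine Finset.prod_congr rfl fun i _ => ?_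
    rw [Pi.smul_apply, smul_eq_mul, mul_pow]
  rw [h3]
  ring

theorem stp_smul {d : ℕ} {f : Fin (N + 1) → MvPolynomial (Fin (N + 1)) L}
    (hf : ∀ i, (f i).IsHomogeneous d) (c : L) (x : Fin (N + 1) → L) :
    stp f (c • x) = c ^ d • stp f x := by
  funext i
  exact eval_smul_of_hom (hf i) c x

/-- orbits of conjugate maps -/
theorem conj_orb {d : ℕ} {f ψ : Fin (N + 1) → MvPolynomial (Fin (N + 1)) L}
    (hf : ∀ i, (f i).IsHomogeneous d) {g : Matrix (Fin (N + 1)) (Fin (N + 1)) L}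
    (hconj : ∀ z : Fin (N + 1) → L, z ≠ 0 → ∃ c : L, c ≠ 0 ∧
      stp f (g.mulVec z) = c • g.mulVec (stp ψ z))
    (hψ : ∀ z : Fin (N + 1) → L, z ≠ 0 → stp ψ z ≠ 0) {x y : Fin (N + 1) → L} (hy : y ≠ 0)
    (hx : ∃ c : L, c ≠ 0 ∧ x = c • g.mulVec y) (n : ℕ) :
    itr ψ y n ≠ 0 ∧ ∃ c : L, c ≠ 0 ∧ itr f x n = c • g.mulVec (itr ψ y n) := by
  induction n with
  | zero => exact ⟨hy, hx⟩
  | succ n ih =>
    obtain ⟨h1, c, hc, h2⟩ := ih
    refine ⟨?_, ?_⟩
    · rw [itr_succ]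
      exact hψ _ h1
    · obtain ⟨c', hc', h3⟩ := hconj _ h1
      refine ⟨c ^ d * c', mul_ne_zero (pow_ne_zero _ hc) hc', ?_⟩
      rw [itr_succ, itr_succ, h2, stp_smul hf, h3, smul_smul]

/-- vanishing at proportional vectors -/
theorem eval_smul_iff {G : MvPolynomial (Fin (N + 1)) L} {e : ℕ} (h : G.IsHomogeneous e)
    {c : L} (hc : c ≠ 0) (x : Fin (N + 1) → L) : eval (c • x) G = 0 ↔ eval x G = 0 := by
  rw [eval_smul_of_hom h, mul_eq_zero, or_iff_right (pow_ne_zero _ hc)]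

theorem mulVec_ne {g : Matrix (Fin (N + 1)) (Fin (N + 1)) L} (hg : g.det ≠ 0)
    {z : Fin (N + 1) → L} (hz : z ≠ 0) : g.mulVec z ≠ 0 := by
  intro h
  exact hg (Matrix.exists_mulVec_eq_zero_iff.1 ⟨z, hz, h⟩)

end

end Pool.Agent.Helper28.NI
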