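import Pool.Agent.Helper72.NI.Ctx

/-!
# A subfield of a subfield
-/

set_option autoImplicit false

namespace Pool.Agent.Helper28.NI

open MvPolynomial
open Pool.Agent.Helper72.NI (acl Rel exists_rel subset_acl acl_eq_self mem_acl' mem_acl
  isAlgClosed_acl)

section

variable {k k' : Subfield ℂ}

/-- `k'` as a subfield of `k` -/
noncomputable def kT (k k' : Subfield ℂ) : Subfield k := k'.comap k.subtype

theorem mem_kT {x : k} : x ∈ kT k k' ↔ (x : ℂ) ∈ k' := Iff.rfl

/-- the isomorphism -/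
noncomputable def eT (hk : k' ≤ k) : kT k k' ≃+* k' where
  toFun x := ⟨((x : k) : ℂ), x.2⟩
  invFun y := ⟨⟨(y : ℂ), hk y.2⟩, y.2⟩
  left_inv _ := rfl
  right_inv _ := rfl
  map_mul' _ _ := rfl
  map_add' _ _ := rfl

theorem isAlgClosed_kT (hk : k' ≤ k) [IsAlgClosed k'] : IsAlgClosed (kT k k') :=
  IsAlgClosed.of_ringEquiv k' (kT k k') (eT hk).symm

theorem countable_kT (h : (k' : Set ℂ).Countable) : (kT k k' : Set k).Countable :=
  h.preimage Subtype.val_injective

theorem rel_T (hk : k' ≤ k) {t c : k} {D : ℕ} (h : Rel k' (t : ℂ) D (c : ℂ)) :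
    Rel (kT k k') t D c := by
  obtain ⟨P, h1, h2, h3⟩ := h
  have hinj : Function.Injective (eT hk).symm.toRingHom := (eT hk).symm.injective
  refine ⟨map (eT hk).symm.toRingHom P, ?_, ?_, ?_⟩
  · exact fun h0 => h1 ((map_eq_zero_iff _ (MvPolynomial.map_injective _ hinj)).1 h0)
  · have h5 : (map (eT hk).symm.toRingHom P).totalDegree ≤ P.totalDegree := by
      unfold MvPolynomial.totalDegree
      exact Finset.sup_mono (MvPolynomial.support_map_subset _ _)
    exact h5.trans h2
  · apply k.subtype.injective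
    rw [map_zero, ← h3, aeval_def, aeval_def, hom_eval₂, eval₂_map]
    congr 1
    funext i
    fin_cases i <;> rfl

theorem mem_acl_T (hk : k' ≤ k) [IsAlgClosed k'] {t : k} (ht : (t : ℂ) ∉ k')
    (h : ∀ z ∈ k, z ∈ acl (insert (t : ℂ) (k' : Set ℂ))) (z : k) :
    z ∈ acl (insert t (kT k k' : Set k)) := by
  have hc := isAlgClosed_kT (k := k) hk
  obtain ⟨D, hD⟩ := exists_rel (h z z.2)
  refine Rel.mem_acl ?_ (rel_T hk hD)
  rw [acl_eq_self (F := kT k k')]
  exact ht

theorem countable_acl {S : Set ℂ} (hS : S.Countable) : (acl S : Set ℂ).Countable := by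
  have h1 : (acl S : Set ℂ) = {z : ℂ | IsAlgebraic (Algebra.adjoin ℤ S) z} := by
    ext z
    exact mem_acl'
  have hc : Countable S := hS.to_subtype
  have h2 : Countable (Algebra.adjoin ℤ S) := by
    have h3 : (Algebra.adjoin ℤ S : Set ℂ) =
        Set.range (aeval (fun x : S => (x : ℂ)) : MvPolynomial S ℤ →ₐ[ℤ] ℂ) := by
      rw [Algebra.adjoin_eq_range]
      rfl
    have h4 : Countable (MvPolynomial S ℤ) := by
      rw [← Cardinal.mk_le_aleph0_iff]
      refine (MvPolynomial.cardinalMk_le_max).trans ?_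
      simp
    have h5 : (Algebra.adjoin ℤ S : Set ℂ).Countable := by
      rw [h3]
      exact Set.countable_range _
    exact h5.to_subtype
  rw [h1]
  exact Algebraic.countable _ _

theorem algebraic_of_acl_empty {z : ℂ} (h : z ∈ acl (∅ : Set ℂ)) : IsAlgebraic ℚ z := by
  have h2 : IsAlgClosed (algebraicClosure ℚ ℂ).toSubfield := by
    have h0 := algebraicClosure.isAlgClosure ℚ ℂ
    have : IsAlgClosed (algebraicClosure ℚ ℂ) := h0.isAlgClosed
    exact this
  have h1 : acl (∅ : Set ℂ) ≤ (algebraicClosure ℚ ℂ).toSubfield :=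
    Pool.Agent.Helper72.NI.acl_le_self (Set.empty_subset _)
  exact mem_algebraicClosure_iff.1 (h1 h)

end

end Pool.Agent.Helper28.NI
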