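import Pool.Agent.Helper29.MF.T47
import Pool.Agent.Helper36.NI.Nondense
import Pool.Agent.Helper28.NI.Sub
import Pool.Agent.Helper28.NI.Tr

/-!
# NI-ASM: the final assembly

`f` is an endomorphism of `P^N` over `ℂ` which is not conjugate to one over the algebraic numbers.
Among the finite sets `s` such that `f` is conjugate to a map over `acl s` one takes a set with the
least number of elements.
-/

set_option autoImplicit false

namespace Pool.Agent.Helper28.NI

open MvPolynomial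
open Pool.Agent.Helper72.NI (stp itr itr_zero itr_succ Endo Low Rel acl exists_rel subset_acl
  acl_eq_self isAlgClosed_acl acl_mono acl_le acl_insert_acl)
open Pool.Agent.Helper38.TQ (IsEndo CurveSet curveSet_of_krull IsConst)

/-- The main theorem on points of bounded height. -/
def CoreStatement : Prop :=
  ∀ (T : Type) [Field T] [IsAlgClosed T] [CharZero T] (k : Subfield T) [IsAlgClosed k],
    (k : Set T).Countable → ∀ (t : T), t ∉ k → (∀ z : T, z ∈ acl (insert t (k : Set T))) →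
    ∀ (N d : ℕ), 1 ≤ N → ∀ (f : Fin (N + 1) → MvPolynomial (Fin (N + 1)) T), Endo ⊤ d f →
    ∀ (a : Fin (N + 1) → T), a ≠ 0 → Low k t f a →
    (∀ (e : ℕ) (H : MvPolynomial (Fin (N + 1)) T), H.IsHomogeneous e → H ≠ 0 →
      ∃ n, eval (itr f a n) H ≠ 0) →
    ∃ (g : Matrix (Fin (N + 1)) (Fin (N + 1)) T)
      (ψ : Fin (N + 1) → MvPolynomial (Fin (N + 1)) T), g.det ≠ 0 ∧
      (∀ i, (ψ i).IsHomogeneous d) ∧ (∀ i m, (ψ i).coeff m ∈ k) ∧
      ∀ z : Fin (N + 1) → T, z ≠ 0 → ∃ c : T, c ≠ 0 ∧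
        stp f (g.mulVec z) = c • g.mulVec (stp ψ z)

/-- finite unions of progressions -/
def FU (R : Set ℕ) : Prop :=
  ∃ T : Finset (ℕ × ℕ), R = {n : ℕ | ∃ q ∈ T, ∃ m : ℕ, n = q.1 * m + q.2}

variable {N d : ℕ}

/-- the return set -/
def rs (f : Fin (N + 1) → MvPolynomial (Fin (N + 1)) ℂ) (a : Fin (N + 1) → ℂ)
    (S : Set (MvPolynomial (Fin (N + 1)) ℂ)) : Set ℕ := {n | ∀ g ∈ S, eval (itr f a n) g = 0}

theorem fu_univ : FU Set.univ :=
  ⟨{(1, 0)}, by
    ext n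
    simp only [Set.mem_univ, Set.mem_ofPred_eq, Finset.mem_singleton, exists_eq_left, true_iff]
    exact ⟨n, by ring⟩⟩

/-- A proper closed subset of the plane has dimension at most one. -/
theorem Asm_krull (hN : N ≤ 2) (S : Set (MvPolynomial (Fin (N + 1)) ℂ))
    {g : MvPolynomial (Fin (N + 1)) ℂ} (hg : g ∈ S) (hg0 : g ≠ 0) :
    ringKrullDim (MvPolynomial (Fin (N + 1)) ℂ ⧸ Ideal.span S) ≤ 2 := by
  have h1 : ringKrullDim (MvPolynomial (Fin (N + 1)) ℂ ⧸ Ideal.span {g}) + 1 ≤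
      ringKrullDim (MvPolynomial (Fin (N + 1)) ℂ) :=
    ringKrullDim_quotient_succ_le_of_nonZeroDivisor (mem_nonZeroDivisors_of_ne_zero hg0)
  rw [MvPolynomial.ringKrullDim_of_isNoetherianRing, ringKrullDim_eq_zero_of_field, zero_add,
    Nat.card_fin] at h1
  have hle : Ideal.span {g} ≤ Ideal.span S := Ideal.span_mono (by simpa using hg)
  have h2 : ringKrullDim (MvPolynomial (Fin (N + 1)) ℂ ⧸ Ideal.span S) ≤
      ringKrullDim (MvPolynomial (Fin (N + 1)) ℂ ⧸ Ideal.span {g}) :=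
    ringKrullDim_le_of_surjective (Ideal.Quotient.factor hle)
      (Ideal.Quotient.factor_surjective hle)
  refine h2.trans ?_
  have h3 : ((N + 1 : ℕ) : WithBot ℕ∞) ≤ 2 + 1 := by
    have : (N + 1 : ℕ) ≤ 3 := by omega
    calc ((N + 1 : ℕ) : WithBot ℕ∞) ≤ ((3 : ℕ) : WithBot ℕ∞) := by exact_mod_cast this
      _ = 2 + 1 := by norm_num
  have h4 := h1.trans h3
  generalize ringKrullDim (MvPolynomial (Fin (N + 1)) ℂ ⧸ Ideal.span {g}) = D at h4
  induction D using WithBot.recBotCoe with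
  | bot => exact bot_le
  | coe D =>
    have h5 : D + 1 ≤ 2 + 1 := WithBot.coe_le_coe.1 h4
    have h6 : D ≤ 2 := (ENat.add_le_add_iff_right ENat.one_ne_top).1 h5
    exact WithBot.coe_le_coe.2 h6

/-- Lifting polynomials to a subfield. -/
theorem exists_lift (k : Subfield ℂ) (f : Fin (N + 1) → MvPolynomial (Fin (N + 1)) ℂ)
    (hk : ∀ i m, (f i).coeff m ∈ k) :
    ∃ F : Fin (N + 1) → MvPolynomial (Fin (N + 1)) k, ∀ i, map (algebraMap k ℂ) (F i) = f i := by
  have hlift : ∀ i, ∃ g : MvPolynomial (Fin (N + 1)) k, map (algebraMap k ℂ) g = f i := by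
    intro i
    have h1 : f i ∈ Set.range (map (σ := Fin (N + 1)) (algebraMap k ℂ)) := by
      rw [mem_range_map_iff_coeffs_subset]
      intro c hc
      obtain ⟨m, hm⟩ := mem_coeffs_iff.1 hc
      exact ⟨⟨c, by rw [hm.2]; exact hk i m⟩, rfl⟩
    exact h1
  choose F hF using hlift
  exact ⟨F, hF⟩

theorem eval_lift {k : Subfield ℂ} (G : MvPolynomial (Fin (N + 1)) k) (x : Fin (N + 1) → k) :
    eval (fun i => (x i : ℂ)) (map (algebraMap k ℂ) G) = ((eval x G : k) : ℂ) := by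
  exact (Pool.Agent.Helper38.Sym.map_eval_gen (algebraMap k ℂ) x G).symm

theorem endo_lift {k : Subfield ℂ} {f : Fin (N + 1) → MvPolynomial (Fin (N + 1)) ℂ}
    (hf : IsEndo d f) {F : Fin (N + 1) → MvPolynomial (Fin (N + 1)) k}
    (hF : ∀ i, map (algebraMap k ℂ) (F i) = f i) : IsEndo d F := by
  refine ⟨hf.two_le, fun i => ?_, fun x hx => ?_⟩
  · have := hf.hom i
    rw [← hF i] at this
    exact this.of_map (algebraMap k ℂ).injective
  · have h1 : (fun i => ((x i : k) : ℂ)) = 0 := by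
      apply hf.nz
      intro i
      rw [← hF i, eval_lift, hx i]
      rfl
    funext i
    exact Subtype.ext (congrFun h1 i)

theorem stp_lift {k : Subfield ℂ} {f : Fin (N + 1) → MvPolynomial (Fin (N + 1)) ℂ}
    {F : Fin (N + 1) → MvPolynomial (Fin (N + 1)) k} (hF : ∀ i, map (algebraMap k ℂ) (F i) = f i)
    (x : Fin (N + 1) → k) : stp f (fun i => (x i : ℂ)) = fun i => ((stp F x i : k) : ℂ) := by
  funext i
  show eval _ (f i) = _
  rw [← hF i, eval_lift]
  rfl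

theorem itr_lift {k : Subfield ℂ} {f : Fin (N + 1) → MvPolynomial (Fin (N + 1)) ℂ}
    {F : Fin (N + 1) → MvPolynomial (Fin (N + 1)) k} (hF : ∀ i, map (algebraMap k ℂ) (F i) = f i)
    (x : Fin (N + 1) → k) (n : ℕ) :
    itr f (fun i => (x i : ℂ)) n = fun i => ((itr F x n i : k) : ℂ) := by
  induction n with
  | zero => rfl
  | succ n ih => rw [itr_succ, ih, stp_lift hF, itr_succ]

/-- Maps over the constants, points which are not constant. -/
theorem nonconst_case {k : Subfield ℂ} [IsAlgClosed k]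
    {ψ : Fin (N + 1) → MvPolynomial (Fin (N + 1)) ℂ} (hψ : IsEndo d ψ)
    (hk : ∀ i m, (ψ i).coeff m ∈ k) {b : Fin (N + 1) → ℂ} (hb : b ≠ 0)
    (hbk : ¬ ∃ c : ℂ, c ≠ 0 ∧ ∀ i, c * b i ∈ k) {S : Set (MvPolynomial (Fin (N + 1)) ℂ)}
    (hS : ∀ g ∈ S, ∃ e, g.IsHomogeneous e) (hcur : CurveSet S) : FU (rs ψ b S) := by
  obtain ⟨F, hF⟩ := exists_lift k ψ hk
  have hc : ¬ IsConst k b := by
    rintro ⟨z, c, hc, h1⟩
    apply hbk
    refine ⟨c⁻¹, inv_ne_zero hc, fun i => ?_⟩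
    rw [h1, ← mul_assoc, inv_mul_cancel₀ hc, one_mul]
    exact (z i).2
  have horb : ∀ n, Pool.Agent.Helper36.iter F b n = itr ψ b n := by
    intro n
    have h1 : Pool.Agent.Helper36.step F = stp ψ := by
      funext x i
      show _ = eval x (ψ i)
      rw [← hF i, eval_map]
      rfl
    unfold itr
    rw [← h1]
    rfl
  have h := Pool.Agent.Helper38.TNA.dml_curve_all (endo_lift hψ hF) hb hc hS hcur
  simp only [horb] at h
  exact h

/-- Unbounded heights. -/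
theorem unbounded_case {k' : Subfield ℂ} [IsAlgClosed k'] {t : ℂ} (ht : t ∉ k')
    {ψ : Fin (N + 1) → MvPolynomial (Fin (N + 1)) ℂ} (hψ : IsEndo d ψ)
    (hk : ∀ i m, ∃ D, Rel k' t D ((ψ i).coeff m)) {b : Fin (N + 1) → ℂ} (hb : b ≠ 0)
    (hbk : ∀ i, ∃ D, Rel k' t D (b i)) (hlow : ¬ Low k' t ψ b)
    {S : Set (MvPolynomial (Fin (N + 1)) ℂ)}
    (hS : ∀ g ∈ S, ∃ e, g.IsHomogeneous e) (hcur : CurveSet S) : FU (rs ψ b S) := by
  have halg : ∀ {c : ℂ}, (∃ D, Rel k' t D c) → Pool.Agent.Helper38.TQK.Alg k' t c := by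
    rintro c ⟨D, P, hP0, -, hP⟩
    exact ⟨P, hP0, hP⟩
  refine Pool.Agent.Helper38.TNA.curves_all (t := t) ?_ hψ (fun i m => halg (hk i m)) hb
    (fun i => halg (hbk i)) ?_ hS hcur
  · rintro ⟨c, hc⟩
    exact ht (hc ▸ c.2)
  · intro D
    by_contra hcon
    push Not at hcon
    exact hlow ⟨D, fun n i j hj => hcon n i j hj⟩

/-- The map `f` is conjugate to a map with coefficients in `κ`. -/
def ConjOver (κ : Subfield ℂ) (d : ℕ) (f : Fin (N + 1) → MvPolynomial (Fin (N + 1)) ℂ) : Prop :=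
  ∃ (g : Matrix (Fin (N + 1)) (Fin (N + 1)) ℂ) (ψ : Fin (N + 1) → MvPolynomial (Fin (N + 1)) ℂ),
    g.det ≠ 0 ∧ (∀ i, (ψ i).IsHomogeneous d) ∧ (∀ i m, (ψ i).coeff m ∈ κ) ∧
      ∀ z : Fin (N + 1) → ℂ, z ≠ 0 → ∃ c : ℂ, c ≠ 0 ∧
        stp f (g.mulVec z) = c • g.mulVec (stp ψ z)

theorem conjOver_self {f : Fin (N + 1) → MvPolynomial (Fin (N + 1)) ℂ}
    (hf : ∀ i, (f i).IsHomogeneous d) : ∃ s : Finset ℂ, ConjOver (acl (s : Set ℂ)) d f := by
  classical
  refine ⟨Finset.univ.biUnion fun i => (f i).support.image fun m => (f i).coeff m, 1, f, ?_, hf,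
    fun i m => ?_, fun z _ => ⟨1, one_ne_zero, ?_⟩⟩
  · rw [Matrix.det_one]
    exact one_ne_zero
  · by_cases h : (f i).coeff m = 0
    · rw [h]
      exact zero_mem _
    · apply subset_acl
      rw [Finset.mem_coe, Finset.mem_biUnion]
      exact ⟨i, Finset.mem_univ i, Finset.mem_image.2 ⟨m, mem_support_iff.2 h, rfl⟩⟩
  · rw [Matrix.one_mulVec, Matrix.one_mulVec, one_smul]

/-- Conjugate maps have no common zero. -/
theorem conj_ne {L : Type} [Field L] {f ψ : Fin (N + 1) → MvPolynomial (Fin (N + 1)) L}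
    (hf : IsEndo d f) {g : Matrix (Fin (N + 1)) (Fin (N + 1)) L} (hg : g.det ≠ 0)
    (hconj : ∀ z : Fin (N + 1) → L, z ≠ 0 → ∃ c : L, c ≠ 0 ∧
      stp f (g.mulVec z) = c • g.mulVec (stp ψ z)) {z : Fin (N + 1) → L} (hz : z ≠ 0) :
    stp ψ z ≠ 0 := by
  intro h
  obtain ⟨c, hc, h1⟩ := hconj z hz
  rw [h, Matrix.mulVec_zero, smul_zero] at h1
  exact mulVec_ne hg hz (hf.nz _ fun i => congrFun h1 i)

theorem endo_of_conj {L : Type} [Field L] {f ψ : Fin (N + 1) → MvPolynomial (Fin (N + 1)) L}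
    (hf : IsEndo d f) (hψ : ∀ i, (ψ i).IsHomogeneous d)
    {g : Matrix (Fin (N + 1)) (Fin (N + 1)) L} (hg : g.det ≠ 0)
    (hconj : ∀ z : Fin (N + 1) → L, z ≠ 0 → ∃ c : L, c ≠ 0 ∧
      stp f (g.mulVec z) = c • g.mulVec (stp ψ z)) : IsEndo d ψ := by
  refine ⟨hf.two_le, hψ, fun x hx => ?_⟩
  by_contra hne
  exact conj_ne hf hg hconj hne (funext hx)

theorem map_sb {k : Subfield ℂ} (g : Matrix (Fin (N + 1)) (Fin (N + 1)) k)
    (G : MvPolynomial (Fin (N + 1)) k) :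
    map (algebraMap k ℂ) (sb g G) = sb (g.map (algebraMap k ℂ)) (map (algebraMap k ℂ) G) := by
  have h : (map (algebraMap k ℂ)).comp (sb g).toRingHom =
      ((sb (g.map (algebraMap k ℂ))).toRingHom).comp (map (σ := Fin (N + 1)) (algebraMap k ℂ)) := by
    apply MvPolynomial.ringHom_ext
    · intro r
      show map (algebraMap k ℂ) (sb g (C r)) =
        sb (g.map (algebraMap k ℂ)) (map (algebraMap k ℂ) (C r))
      rw [map_C]
      unfold sb
      rw [aeval_C, aeval_C, algebraMap_eq, algebraMap_eq, map_C]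
    · intro i
      show map (algebraMap k ℂ) (sb g (X i)) =
        sb (g.map (algebraMap k ℂ)) (map (algebraMap k ℂ) (X i))
      rw [map_X]
      unfold sb
      rw [aeval_X, aeval_X, map_sum]
      refine Finset.sum_congr rfl fun j _ => ?_
      rw [map_mul, map_C, map_X]
      rfl
  exact RingHom.congr_fun h G

theorem prop_of_minors {L : Type} [Field L] {a b : Fin (N + 1) → L} (ha : a ≠ 0) (hb : b ≠ 0)
    (h : ∀ i j, a i * b j = a j * b i) : ∃ c : L, c ≠ 0 ∧ a = c • b := by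
  obtain ⟨j, hj⟩ := Function.ne_iff.1 hb
  have hj' : b j ≠ 0 := hj
  have h1 : a = (a j / b j) • b := by
    funext i
    rw [Pi.smul_apply, smul_eq_mul, div_mul_eq_mul_div, eq_div_iff hj']
    exact h i j
  refine ⟨a j / b j, fun h0 => ha ?_, h1⟩
  rw [h1, h0, zero_smul]

/-- A conjugation over `k` is a conjugation over `ℂ`. -/
theorem conj_up {k : Subfield ℂ} [IsAlgClosed k] {ψ : Fin (N + 1) → MvPolynomial (Fin (N + 1)) ℂ}
    (hψ : IsEndo d ψ) {F : Fin (N + 1) → MvPolynomial (Fin (N + 1)) k}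
    (hF : ∀ i, map (algebraMap k ℂ) (F i) = ψ i)
    {g : Matrix (Fin (N + 1)) (Fin (N + 1)) k} (hg : g.det ≠ 0)
    {φ : Fin (N + 1) → MvPolynomial (Fin (N + 1)) k} (hφ : ∀ i, (φ i).IsHomogeneous d)
    (hconj : ∀ z : Fin (N + 1) → k, z ≠ 0 → ∃ c : k, c ≠ 0 ∧
      stp F (g.mulVec z) = c • g.mulVec (stp φ z)) :
    (g.map (algebraMap k ℂ)).det ≠ 0 ∧ ∀ z : Fin (N + 1) → ℂ, z ≠ 0 → ∃ c : ℂ, c ≠ 0 ∧
      stp ψ ((g.map (algebraMap k ℂ)).mulVec z) =
        c • (g.map (algebraMap k ℂ)).mulVec (stp (fun i => map (algebraMap k ℂ) (φ i)) z) := by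
  have hdet : (g.map (algebraMap k ℂ)).det ≠ 0 := by
    have h1 : algebraMap k ℂ g.det = (g.map (algebraMap k ℂ)).det := RingHom.map_det _ _
    rw [← h1]
    exact (map_ne_zero (algebraMap k ℂ)).2 hg
  refine ⟨hdet, fun z hz => ?_⟩
  have hEF : IsEndo d F := endo_lift hψ hF
  have hEφ : IsEndo d φ := endo_of_conj hEF hφ hg hconj
  have hEφ' : IsEndo d (fun i => map (algebraMap k ℂ) (φ i)) := hEφ.map
  have hd0 : d ≠ 0 := by
    have := hψ.two_le
    omega
  obtain ⟨B, hB⟩ : ∃ B : Fin (N + 1) → MvPolynomial (Fin (N + 1)) k,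
      ∀ i, B i = ∑ j, C (g i j) * φ j := ⟨_, fun i => rfl⟩
  have hBe : ∀ (z : Fin (N + 1) → k) (i : Fin (N + 1)), eval z (B i) = g.mulVec (stp φ z) i := by
    intro z i
    rw [hB, map_sum]
    refine Finset.sum_congr rfl fun j _ => ?_
    rw [map_mul, eval_C]
    rfl
  have hmin : ∀ i j, sb g (F i) * B j = sb g (F j) * B i := by
    intro i j
    apply MvPolynomial.funext
    intro w
    rw [map_mul, map_mul, hBe, hBe, eval_sb, eval_sb]
    by_cases hw : w = 0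
    · have h0 : ∀ l, eval (g.mulVec w) (F l) = 0 := by
        intro l
        rw [hw, Matrix.mulVec_zero]
        have h1 := eval_smul_of_hom (hEF.hom l) (0 : k) (0 : Fin (N + 1) → k)
        rw [zero_smul, zero_pow hd0, zero_mul] at h1
        exact h1
      rw [h0, h0, zero_mul, zero_mul]
    · obtain ⟨c, -, hc⟩ := hconj w hw
      have h1 : ∀ l, eval (g.mulVec w) (F l) = c * g.mulVec (stp φ w) l := fun l => congrFun hc l
      rw [h1, h1]
      ring
  apply prop_of_minors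
  · intro h
    exact mulVec_ne hdet hz (hψ.nz _ fun i => congrFun h i)
  · apply mulVec_ne hdet
    intro h
    exact hz (hEφ'.nz _ fun i => congrFun h i)
  · intro i j
    have hBe' : ∀ l, eval z (map (algebraMap k ℂ) (B l)) =
        (g.map (algebraMap k ℂ)).mulVec (stp (fun i => map (algebraMap k ℂ) (φ i)) z) l := by
      intro l
      rw [hB, map_sum, map_sum]
      refine Finset.sum_congr rfl fun j _ => ?_
      rw [map_mul, map_mul, map_C, eval_C]
      rfl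
    have hA : ∀ l, eval z (map (algebraMap k ℂ) (sb g (F l))) =
        stp ψ ((g.map (algebraMap k ℂ)).mulVec z) l := by
      intro l
      rw [map_sb, eval_sb, hF]
      rfl
    have h1 := congrArg (fun P => eval z (map (algebraMap k ℂ) P)) (hmin i j)
    simp only [map_mul] at h1
    rw [hA, hA, hBe', hBe'] at h1
    exact h1

/-- the case of a point -/
theorem conj_zero {f : Fin (0 + 1) → MvPolynomial (Fin (0 + 1)) ℂ} (hf : IsEndo d f)
    (z : Fin (0 + 1) → ℂ) (hz : z ≠ 0) : ∃ c : ℂ, c ≠ 0 ∧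
      stp f ((1 : Matrix (Fin (0 + 1)) (Fin (0 + 1)) ℂ).mulVec z) =
        c • (1 : Matrix (Fin (0 + 1)) (Fin (0 + 1)) ℂ).mulVec (stp (fun _ => X 0 ^ d) z) := by
  apply prop_of_minors
  · rw [Matrix.one_mulVec]
    intro h
    exact hz (hf.nz _ fun i => congrFun h i)
  · rw [Matrix.one_mulVec]
    intro h
    apply hz
    have h1 : eval z (X 0 ^ d) = 0 := congrFun h 0
    rw [map_pow, eval_X] at h1
    funext i
    obtain rfl : i = 0 := Fin.ext (by omega)
    have hd : d ≠ 0 := by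
      have := hf.two_le
      omega
    exact (pow_eq_zero_iff hd).1 h1
  · intro i j
    obtain rfl : i = j := Fin.ext (by omega)
    rfl

theorem itr_scale {ψ : Fin (N + 1) → MvPolynomial (Fin (N + 1)) ℂ} (hψ : IsEndo d ψ)
    {b : Fin (N + 1) → ℂ} (hb : b ≠ 0) {c₀ : ℂ} (hc₀ : c₀ ≠ 0) (n : ℕ) :
    ∃ c : ℂ, c ≠ 0 ∧ itr ψ (c₀ • b) n = c • itr ψ b n := by
  have h := (conj_orb (g := 1) hψ.hom (ψ := ψ) (fun z _ => ⟨1, one_ne_zero, by
    rw [Matrix.one_mulVec, Matrix.one_mulVec, one_smul]⟩)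
    (fun z hz h => hz (hψ.nz _ fun i => congrFun h i)) hb (x := c₀ • b)
    ⟨c₀, hc₀, by rw [Matrix.one_mulVec]⟩ n).2
  simpa only [Matrix.one_mulVec] using h

/-- **Final assembly.** -/
theorem asm (core : CoreStatement) {f : Fin (N + 1) → MvPolynomial (Fin (N + 1)) ℂ}
    (hf : IsEndo d f)
    (hniso : ∀ (g : Matrix (Fin (N + 1)) (Fin (N + 1)) ℂ)
      (ψ : Fin (N + 1) → MvPolynomial (Fin (N + 1)) ℂ), g.det ≠ 0 →
      (∀ i, (ψ i).IsHomogeneous d) → (∀ i m, IsAlgebraic ℚ ((ψ i).coeff m)) →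
      ¬ ∀ z : Fin (N + 1) → ℂ, z ≠ 0 → ∃ c : ℂ, c ≠ 0 ∧
        (fun i => eval (g.mulVec z) (f i)) = c • g.mulVec (fun j => eval z (ψ j)))
    {a : Fin (N + 1) → ℂ} (ha : a ≠ 0) {S : Set (MvPolynomial (Fin (N + 1)) ℂ)}
    (hS : ∀ g ∈ S, ∃ e, g.IsHomogeneous e)
    (hdim : N = 2 ∨ ringKrullDim (MvPolynomial (Fin (N + 1)) ℂ ⧸ Ideal.span S) ≤ 2)
    (hdense : N = 2 ∨ ∀ (e : ℕ) (H : MvPolynomial (Fin (N + 1)) ℂ), H.IsHomogeneous e → H ≠ 0 →
      ∃ n, eval ((fun (x : Fin (N + 1) → ℂ) (i : Fin (N + 1)) => eval x (f i))^[n] a) H ≠ 0) :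
    ∃ T : Finset (ℕ × ℕ), {n : ℕ | ∀ g ∈ S,
        eval ((fun (x : Fin (N + 1) → ℂ) (i : Fin (N + 1)) => eval x (f i))^[n] a) g = 0} =
      {n : ℕ | ∃ q ∈ T, ∃ m : ℕ, n = q.1 * m + q.2} := by
  classical
  change FU (rs f a S)
  by_cases hcl : ∃ (e : ℕ) (H : MvPolynomial (Fin (N + 1)) ℂ), H.IsHomogeneous e ∧ H ≠ 0 ∧
      ∀ n, eval (itr f a n) H = 0
  · obtain ⟨e, H, hH, hH0, hn⟩ := hcl
    have hN : N = 2 := by
      rcases hdense with h | h
      · exact h
      · obtain ⟨n, hn'⟩ := h e H hH hH0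
        exact absurd (hn n) hn'
    subst hN
    exact Pool.Agent.Helper36.NI.nondense hf ha hH hH0 hn hS
  push Not at hcl
  by_cases hall : ∀ g ∈ S, g = 0
  · have h1 : rs f a S = Set.univ := by
      ext n
      simp only [rs, Set.mem_ofPred_eq, Set.mem_univ, iff_true]
      intro g hg
      rw [hall g hg, map_zero]
    rw [h1]
    exact fu_univ
  have hdim' : ringKrullDim (MvPolynomial (Fin (N + 1)) ℂ ⧸ Ideal.span S) ≤ 2 := by
    push Not at hall
    obtain ⟨g, hg, hg0⟩ := hall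
    rcases hdim with h | h
    · exact Asm_krull (by omega) S hg hg0
    · exact h
  have hN1 : 1 ≤ N := by
    by_contra h
    obtain rfl : N = 0 := by omega
    refine hniso 1 (fun _ => X 0 ^ d) ?_ (fun i => isHomogeneous_X_pow _ _) (fun i m => ?_)
      (fun z hz => conj_zero hf z hz)
    · rw [Matrix.det_one]
      exact one_ne_zero
    · rw [coeff_X_pow]
      split_ifs
      · exact isAlgebraic_one
      · exact isAlgebraic_zero
  have hex : ∃ n, ∃ s : Finset ℂ, s.card = n ∧ ConjOver (acl (s : Set ℂ)) d f := by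
    obtain ⟨s, hs⟩ := conjOver_self hf.hom
    exact ⟨_, s, rfl, hs⟩
  obtain ⟨s, hsc, hs⟩ := Nat.find_spec hex
  have hmin : ∀ s' : Finset ℂ, ConjOver (acl (s' : Set ℂ)) d f → s.card ≤ s'.card := by
    intro s' h
    rw [hsc]
    exact Nat.find_min' hex ⟨s', rfl, h⟩
  have hne : s.Nonempty := by
    rw [Finset.nonempty_iff_ne_empty]
    rintro rfl
    obtain ⟨g, ψ, hg, hψ, hc, hconj⟩ := hs
    refine hniso g ψ hg hψ (fun i m => algebraic_of_acl_empty ?_) hconj
    have h1 := hc i m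
    rwa [Finset.coe_empty] at h1
  obtain ⟨t, hts⟩ := hne
  obtain ⟨s', hs'⟩ : ∃ s' : Finset ℂ, s' = s.erase t := ⟨_, rfl⟩
  have hcard : s'.card < s.card := by
    rw [hs']
    exact Finset.card_erase_lt_of_mem hts
  have hins : insert t (s' : Set ℂ) = (s : Set ℂ) := by
    rw [hs', ← Finset.coe_insert, Finset.insert_erase hts]
  obtain ⟨k', hk'⟩ : ∃ k' : Subfield ℂ, k' = acl (s' : Set ℂ) := ⟨_, rfl⟩
  obtain ⟨k, hkk⟩ : ∃ k : Subfield ℂ, k = acl (s : Set ℂ) := ⟨_, rfl⟩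
  have hk : acl (insert t (k' : Set ℂ)) = k := by rw [hk', acl_insert_acl, hins, hkk]
  have hk'k : k' ≤ k := by
    rw [hk', hkk, ← hins]
    exact acl_mono (Set.subset_insert _ _)
  have htk : t ∈ k := by
    rw [hkk]
    exact subset_acl _ (Finset.mem_coe.2 hts)
  rw [← hkk] at hs
  have ht : t ∉ k' := by
    intro h
    have h1 : k ≤ k' := by
      rw [← hk]
      have h2 : acl (insert t (k' : Set ℂ)) ≤ acl (s' : Set ℂ) := by
        apply acl_le
        rw [← hk']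
        exact Set.insert_subset h (le_refl _)
      rwa [← hk'] at h2
    obtain ⟨g, ψ, hg, hψ, hc, hconj⟩ := hs
    have h3 : ConjOver (acl (s' : Set ℂ)) d f := by
      rw [← hk']
      exact ⟨g, ψ, hg, hψ, fun i m => h1 (hc i m), hconj⟩
    exact absurd (hmin s' h3) (not_le.2 hcard)
  have hclk' : IsAlgClosed k' := by
    rw [hk']
    exact isAlgClosed_acl _
  have hclk : IsAlgClosed k := by
    rw [hkk]
    exact isAlgClosed_acl _
  obtain ⟨g, ψ, hg, hψh, hψc, hconj⟩ := hs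
  have hψ : IsEndo d ψ := endo_of_conj hf hψh hg hconj
  have hgu : IsUnit g.det := isUnit_iff_ne_zero.2 hg
  have hg1 : g⁻¹ * g = 1 := Matrix.nonsing_inv_mul g hgu
  have hg2 : g * g⁻¹ = 1 := Matrix.mul_nonsing_inv g hgu
  obtain ⟨b, hb⟩ : ∃ b, b = g⁻¹.mulVec a := ⟨_, rfl⟩
  have hgb : g.mulVec b = a := by rw [hb, Matrix.mulVec_mulVec, hg2, Matrix.one_mulVec]
  have hb0 : b ≠ 0 := by
    intro h
    apply ha
    rw [← hgb, h, Matrix.mulVec_zero]
  have hS' : ∀ G ∈ sb g '' S, ∃ e, G.IsHomogeneous e := by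
    rintro _ ⟨G, hG, rfl⟩
    obtain ⟨e, he⟩ := hS G hG
    exact ⟨e, sb_hom g he⟩
  have hcur : CurveSet (sb g '' S) :=
    curveSet_of_krull hS' (by rw [krull_sb hg]; exact hdim')
  have horb := conj_orb hf.hom hconj (fun z hz => conj_ne hf hg hconj hz) hb0 (x := a)
    ⟨1, one_ne_zero, by rw [one_smul, hgb]⟩
  have hrs : rs f a S = rs ψ b (sb g '' S) := by
    ext n
    obtain ⟨-, c, hc, h1⟩ := horb n
    constructor
    · rintro h _ ⟨H, hH, rfl⟩
      obtain ⟨e, he⟩ := hS H hH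
      have h2 := h H hH
      rw [h1, eval_smul_iff he hc] at h2
      rw [eval_sb]
      exact h2
    · intro h H hH
      obtain ⟨e, he⟩ := hS H hH
      have h2 := h _ ⟨H, hH, rfl⟩
      rw [eval_sb] at h2
      rw [h1, eval_smul_iff he hc]
      exact h2
  rw [hrs]
  by_cases hbk : ∃ c : ℂ, c ≠ 0 ∧ ∀ i, c * b i ∈ k
  swap
  · exact nonconst_case hψ hψc hb0 hbk hS' hcur
  obtain ⟨c₀, hc₀, hcb⟩ := hbk
  have hsc' := itr_scale hψ hb0 hc₀
  have hb'0 : c₀ • b ≠ 0 := smul_ne_zero hc₀ hb0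
  have hrs' : rs ψ b (sb g '' S) = rs ψ (c₀ • b) (sb g '' S) := by
    ext n
    obtain ⟨c, hc, h1⟩ := hsc' n
    constructor
    · intro h G hG
      obtain ⟨e, he⟩ := hS' G hG
      rw [h1, eval_smul_iff he hc]
      exact h G hG
    · intro h G hG
      obtain ⟨e, he⟩ := hS' G hG
      have h2 := h G hG
      rwa [h1, eval_smul_iff he hc] at h2
  rw [hrs']
  by_cases hlow : Low k' t ψ (c₀ • b)
  swap
  · exact unbounded_case ht hψ (fun i m => exists_rel (by rw [hk]; exact hψc i m)) hb'0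
      (fun i => exists_rel (by rw [hk]; exact hcb i)) hlow hS' hcur
  exfalso
  obtain ⟨F, hF⟩ := exists_lift k ψ hψc
  have hchar : CharZero k := (algebraMap k ℂ).charZero
  have hclT : IsAlgClosed (kT k k') := isAlgClosed_kT hk'k
  obtain ⟨bT, hbT⟩ : ∃ bT : Fin (N + 1) → k, (fun i => ((bT i : k) : ℂ)) = c₀ • b :=
    ⟨fun i => ⟨c₀ * b i, hcb i⟩, rfl⟩
  have hitr : ∀ n, itr ψ (c₀ • b) n = fun i => ((itr F bT n i : k) : ℂ) := by
    intro n
    rw [← hbT]
    exact itr_lift hF bT n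
  have hEF : IsEndo d F := endo_lift hψ hF
  have hcore := core k (kT k k') (countable_kT (by
      rw [hk']
      exact countable_acl s'.countable_toSet)) ⟨t, htk⟩ (fun h => ht h)
    (mem_acl_T hk'k ht fun z hz => by rwa [hk]) N d hN1 F
    ⟨hEF.two_le, hEF.hom, fun _ _ => Subfield.mem_top _, hEF.nz⟩ bT
    (fun h => hb'0 (by
      rw [← hbT, h]
      rfl)) (by
      obtain ⟨D, hD⟩ := hlow
      refine ⟨D, fun n i j hj => rel_T hk'k ?_⟩
      have h1 := hD n i j (by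
        rw [hitr]
        intro h
        exact hj (Subtype.ext h))
      rw [hitr] at h1
      exact h1) (by
      intro e H hH hH0
      have hG : (map (algebraMap k ℂ) H).IsHomogeneous e := hH.map _
      have hG0 : map (algebraMap k ℂ) H ≠ 0 := fun h =>
        hH0 ((map_eq_zero_iff _ (MvPolynomial.map_injective _ (algebraMap k ℂ).injective)).1 h)
      obtain ⟨n, hn⟩ := hcl e (sb g⁻¹ (map (algebraMap k ℂ) H)) (sb_hom _ hG) (by
        intro h
        apply hG0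
        rw [← sb_sb (g := g) (h := g⁻¹) hg1 (map (algebraMap k ℂ) H), h, map_zero])
      refine ⟨n, fun h => hn ?_⟩
      obtain ⟨-, c, hc, h1⟩ := horb n
      obtain ⟨c', hc', h2⟩ := hsc' n
      rw [eval_sb, h1, Matrix.mulVec_smul, Matrix.mulVec_mulVec, hg1, Matrix.one_mulVec,
        eval_smul_iff hG hc, ← eval_smul_iff hG hc', ← h2, hitr, eval_lift, h]
      rfl)
  obtain ⟨g₂, φ₂, hg₂, hφh, hφc, hconj₂⟩ := hcore
  obtain ⟨hdet, hup⟩ := conj_up hψ hF hg₂ hφh hconj₂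
  have hfin : ConjOver (acl (s' : Set ℂ)) d f := by
    rw [← hk']
    refine ⟨g * g₂.map (algebraMap k ℂ), fun i => map (algebraMap k ℂ) (φ₂ i), ?_,
      fun i => (hφh i).map _, fun i m => ?_, fun z hz => ?_⟩
    · rw [Matrix.det_mul]
      exact mul_ne_zero hg hdet
    · rw [coeff_map]
      exact hφc i m
    · obtain ⟨c, hc, h1⟩ := hup z hz
      obtain ⟨c', hc', h2⟩ := hconj _ (mulVec_ne hdet hz)
      refine ⟨c' * c, mul_ne_zero hc' hc, ?_⟩
      rw [← Matrix.mulVec_mulVec, h2, h1, Matrix.mulVec_smul, Matrix.mulVec_mulVec, smul_smul]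
  exact absurd (hmin s' hfin) (not_le.2 hcard)

end Pool.Agent.Helper28.NI
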