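import Mathlib

/-!
# NI-CL: a line through a generic point avoids the common zeros of coprime polynomials

`A = K[Y_1..Y_n]`. The kernel `P` of `A[T] → E`, `Y ↦ p`, `T ↦ lam`, meets `A` in `0`. If `P ≠ 0` it
contains a prime element `μ`, which is primitive of positive degree, and by Gauss's lemma it divides
every element of `P`. The shift `σ : Y_j ↦ Y_j + T q_j` maps the `X_i` into `P`.
-/

set_option autoImplicit false

namespace Pool.Agent.Helper28.NI

open MvPolynomial

section

variable {K : Type} [Field K] {n : ℕ}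

/-- the shift `Y_j ↦ Y_j + T q_j`, `T ↦ T` -/
noncomputable def sh (q : Fin n → K) :
    Polynomial (MvPolynomial (Fin n) K) →+* Polynomial (MvPolynomial (Fin n) K) :=
  Polynomial.eval₂RingHom
    (aeval fun j => Polynomial.C (X j) + Polynomial.X * Polynomial.C (C (q j)) :
      MvPolynomial (Fin n) K →ₐ[K] Polynomial (MvPolynomial (Fin n) K)).toRingHom
    Polynomial.X

theorem sh_X (q : Fin n → K) : sh q Polynomial.X = Polynomial.X := by
  unfold sh
  rw [Polynomial.coe_eval₂RingHom, Polynomial.eval₂_X]

theorem sh_C (q : Fin n → K) (a : MvPolynomial (Fin n) K) :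
    sh q (Polynomial.C a) =
      aeval (fun j => Polynomial.C (X j) + Polynomial.X * Polynomial.C (C (q j))) a := by
  unfold sh
  rw [Polynomial.coe_eval₂RingHom, Polynomial.eval₂_C]
  rfl

theorem sh_neg (q : Fin n → K) (G : Polynomial (MvPolynomial (Fin n) K)) :
    sh (-q) (sh q G) = G := by
  have h : (sh (-q)).comp (sh q) = RingHom.id _ := by
    apply Polynomial.ringHom_ext'
    · apply MvPolynomial.ringHom_ext
      · intro r
        show sh (-q) (sh q (Polynomial.C (C r))) = Polynomial.C (C r)
        rw [sh_C, ← algebraMap_eq, AlgHom.commutes]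
        show sh (-q) (Polynomial.C (C r)) = _
        rw [sh_C, ← algebraMap_eq, AlgHom.commutes]
        rfl
      · intro j
        show sh (-q) (sh q (Polynomial.C (X j))) = Polynomial.C (X j)
        rw [sh_C, aeval_X, map_add, map_mul, sh_X, sh_C, aeval_X, sh_C, ← algebraMap_eq,
          AlgHom.commutes]
        show Polynomial.C (X j) + Polynomial.X * Polynomial.C (C ((-q) j)) +
          Polynomial.X * Polynomial.C (C (q j)) = Polynomial.C (X j)
        rw [Pi.neg_apply, map_neg, map_neg]
        ring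
    · show sh (-q) (sh q Polynomial.X) = Polynomial.X
      rw [sh_X, sh_X]
  exact RingHom.congr_fun h G

end

/-- a line through a generic point avoids the common zeros of coprime polynomials -/
theorem no_common_root {K E : Type} [Field K] [Field E] [Algebra K E] {n m : ℕ}
    (X : Fin m → MvPolynomial (Fin n) K) (hcop : ∀ g, (∀ i, g ∣ X i) → IsUnit g)
    (p : Fin n → E) (hp : AlgebraicIndependent K p) (q : Fin n → K) (lam : E) :
    ∃ i, aeval (fun j => p j + lam * algebraMap K E (q j)) (X i) ≠ 0 := by
  classical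
  by_contra hcon
  push Not at hcon
  -- some X i is not zero
  have hne : ∃ i, X i ≠ 0 := by
    by_contra h
    push Not at h
    exact not_isUnit_zero (hcop 0 fun i => by rw [h i])
  -- the evaluation at (p, lam)
  obtain ⟨φ, hφ⟩ : ∃ φ : MvPolynomial (Fin n) K →+* E, φ = (aeval p : _ →ₐ[K] E).toRingHom :=
    ⟨_, rfl⟩
  have hinj : Function.Injective φ := by
    rw [hφ]
    exact hp
  obtain ⟨Φ, hΦ⟩ : ∃ Φ : Polynomial (MvPolynomial (Fin n) K) →+* E,
      Φ = Polynomial.eval₂RingHom φ lam := ⟨_, rfl⟩
  have hΦC : ∀ a, Φ (Polynomial.C a) = φ a := by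
    intro a
    rw [hΦ, Polynomial.coe_eval₂RingHom, Polynomial.eval₂_C]
  have hΦX : Φ Polynomial.X = lam := by
    rw [hΦ, Polynomial.coe_eval₂RingHom, Polynomial.eval₂_X]
  have hG : ∀ i, Φ (sh q (Polynomial.C (X i))) = 0 := by
    intro i
    rw [← hcon i, sh_C]
    have h1 : (Φ.comp (aeval (fun j => Polynomial.C (MvPolynomial.X j) +
        Polynomial.X * Polynomial.C (C (q j))) : MvPolynomial (Fin n) K →ₐ[K]
          Polynomial (MvPolynomial (Fin n) K)).toRingHom) =
        (aeval (fun j => p j + lam * algebraMap K E (q j)) :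
          MvPolynomial (Fin n) K →ₐ[K] E).toRingHom := by
      apply MvPolynomial.ringHom_ext
      · intro r
        show Φ (aeval _ (C r)) = aeval _ (C r)
        rw [← algebraMap_eq, AlgHom.commutes, AlgHom.commutes]
        show Φ (Polynomial.C (C r)) = _
        rw [hΦC, hφ, ← algebraMap_eq]
        exact AlgHom.commutes _ r
      · intro j
        show Φ (aeval _ (MvPolynomial.X j)) = aeval _ (MvPolynomial.X j)
        rw [aeval_X, aeval_X, map_add, map_mul, hΦX, hΦC, hΦC, hφ]
        show (aeval p) (MvPolynomial.X j) + lam * (aeval p) (C (q j)) = _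
        rw [aeval_X, ← algebraMap_eq, AlgHom.commutes]
    exact RingHom.congr_fun h1 (X i)
  -- the kernel
  have hprime : (RingHom.ker Φ).IsPrime := RingHom.ker_isPrime Φ
  have hbot : RingHom.ker Φ ≠ ⊥ := by
    intro h
    obtain ⟨i, hi⟩ := hne
    have h1 : sh q (Polynomial.C (X i)) ∈ RingHom.ker Φ := hG i
    rw [h, Ideal.mem_bot] at h1
    have h2 := sh_neg q (Polynomial.C (X i))
    rw [h1, map_zero] at h2
    exact hi (Polynomial.C_eq_zero.1 h2.symm)
  obtain ⟨μ, hμ, hμp⟩ := hprime.exists_mem_prime_of_ne_bot hbot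
  have hμ0 : Φ μ = 0 := hμ
  have hdeg : μ.natDegree ≠ 0 := by
    intro h
    rw [Polynomial.eq_C_of_natDegree_eq_zero h, hΦC] at hμ0
    have h1 := (injective_iff_map_eq_zero φ).1 hinj _ hμ0
    apply hμp.ne_zero
    rw [Polynomial.eq_C_of_natDegree_eq_zero h, h1, Polynomial.C_0]
  have hprim : μ.IsPrimitive := hμp.irreducible.isPrimitive hdeg
  let F := FractionRing (MvPolynomial (Fin n) K)
  have hirr : Irreducible (μ.map (algebraMap (MvPolynomial (Fin n) K) F)) :=
    (hprim.irreducible_iff_irreducible_map_fraction_map).1 hμp.irreducible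
  have hdvd : ∀ G, Φ G = 0 → μ ∣ G := by
    intro G hG0
    apply hprim.dvd_of_fraction_map_dvd_fraction_map (K := F)
    by_contra hnd
    obtain ⟨a, b, hab⟩ := (hirr.coprime_iff_not_dvd).2 hnd
    have h1 := congrArg (Polynomial.eval₂RingHom (IsFractionRing.lift hinj : F →+* E) lam) hab
    have h2 : ∀ H : Polynomial (MvPolynomial (Fin n) K),
        (Polynomial.eval₂RingHom (IsFractionRing.lift hinj : F →+* E) lam)
          (H.map (algebraMap (MvPolynomial (Fin n) K) F)) = Φ H := by
      intro H
      rw [Polynomial.coe_eval₂RingHom, Polynomial.eval₂_map, hΦ, Polynomial.coe_eval₂RingHom]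
      rw [show (IsFractionRing.lift hinj : F →+* E).comp
          (algebraMap (MvPolynomial (Fin n) K) F) = φ from
        RingHom.ext fun x => IsFractionRing.lift_algebraMap hinj x]
    rw [map_add, map_mul, map_mul, h2, h2, hμ0, hG0, map_one] at h1
    simp at h1
  -- back
  have hback : ∀ i, sh (-q) μ ∣ Polynomial.C (X i) := by
    intro i
    have h := map_dvd (sh (-q)) (hdvd _ (hG i))
    rwa [sh_neg] at h
  obtain ⟨i, hi⟩ := hne
  have hd0 : (sh (-q) μ).natDegree = 0 := by
    obtain ⟨s, hs⟩ := hback i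
    have hCi : (Polynomial.C (X i)) ≠ 0 := by
      rw [Ne, Polynomial.C_eq_zero]
      exact hi
    have h1 : sh (-q) μ ≠ 0 := by
      intro h
      rw [h, zero_mul] at hs
      exact hCi hs
    have h2 : s ≠ 0 := by
      intro h
      rw [h, mul_zero] at hs
      exact hCi hs
    have h3 := congrArg Polynomial.natDegree hs
    rw [Polynomial.natDegree_C, Polynomial.natDegree_mul h1 h2] at h3
    omega
  obtain ⟨g, hg⟩ : ∃ g, sh (-q) μ = Polynomial.C g :=
    ⟨_, Polynomial.eq_C_of_natDegree_eq_zero hd0⟩
  have hgu : IsUnit g := by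
    apply hcop
    intro j
    obtain ⟨s, hs⟩ := hback j
    rw [hg] at hs
    refine ⟨s.coeff 0, ?_⟩
    have := congrArg (fun H => Polynomial.coeff H 0) hs
    simpa using this
  apply hμp.not_isUnit
  have h := sh_neg (-q) μ
  rw [neg_neg] at h
  rw [← h, hg]
  exact (hgu.map Polynomial.C).map (sh q)

end Pool.Agent.Helper28.NI
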